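import Pool.Agent.helper16.GK.Spec

/-!
# Row FXU of project GK (MP_2e0e07_nt): open normal subgroups of the absolute Galois group
-/

set_option autoImplicit false

namespace Pool.Agent.GK

open NumberField IsDedekindDomain

theorem FXU : FXU_stmt := by
  intro K _ _ U hU hN
  have hcl : IsClosed (U : Set (GalK K)) := U.isClosed_of_isOpen hU
  obtain ⟨H, hH⟩ : ∃ H : ClosedSubgroup (GalK K), H.toSubgroup = U := ⟨⟨U, hcl⟩, rfl⟩
  have hGal : IsGalois K (AlgebraicClosure K) := inferInstance
  have hHN : H.toSubgroup.Normal := hH.symm ▸ hN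
  have hfix : (IntermediateField.fixedField H.toSubgroup).fixingSubgroup = U :=
    (InfiniteGalois.fixingSubgroup_fixedField H).trans hH
  have hfd : FiniteDimensional K (IntermediateField.fixedField H.toSubgroup) := by
    refine (InfiniteGalois.isOpen_iff_finite _).1 ?_
    rw [hfix]
    exact hU
  have hgal : IsGalois K (IntermediateField.fixedField H.toSubgroup) := by
    refine (InfiniteGalois.normal_iff_isGalois _).1 ?_
    rw [hfix]
    exact hN
  refine ⟨IntermediateField.fixedField H.toSubgroup, hfd, hgal, ?_, ?_⟩
  · rw [← IsGalois.card_aut_eq_finrank, ← hH]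
    exact (Nat.card_congr (InfiniteGalois.normalAutEquivQuotient H).toEquiv).symm
  · intro s
    rw [← hfix, IntermediateField.mem_fixingSubgroup_iff]

end Pool.Agent.GK
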